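import Mathlib
import Pool.Agent.Helper844.LieFP.Defs
import Pool.Agent.Y332.LH.Main

/-!
# Varieties of Lie algebras containing an abelian-by-Heisenberg algebra

Let `k` be a field of characteristic zero. The Lie algebra `L` with three generators `D, X, v` and
the five relations `[Z,X] = 0`, `[Z,D] = 0`, `[Z,v] = v`, `[D,v] = [X,[X,v]]`, `[v,[X,v]] = 0`,
where `Z = [D,X]`, is the semidirect product of the abelian ideal `k[x]` (generated by `v = 1`) and
the three-dimensional Heisenberg algebra, which acts by `D = d/dx + x²`, `X = x`, `Z = 1`. The last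
relation implies that the ideal generated by `v` is abelian, because `X` and `D` act on its
exterior square as `x + y` and as `x² + y²` plus an operator of lower degree. Since `Z` acts as the
identity and is a commutator, every homomorphism to a finite-dimensional algebra kills `v`.
-/

set_option autoImplicit false

namespace Pool.Agent.Results.MP_240c17_al.AboveAN2

open Pool.Agent.Helper844.LieFP (InVariety FinitelyPresented FinitelyPresentedIn
  ResiduallyFiniteDimensional)
open Pool.Agent.Y332.LH

universe u

/-- `L` is abelian-by-(nilpotent of class at most 2): it satisfies the identity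
`[[x₁,x₂,x₃],[y₁,y₂,y₃]] = 0` (left-normed commutators). -/
def AbelianByNilpotent2 (L : Type u) [LieRing L] : Prop :=
  ∀ x₁ x₂ x₃ y₁ y₂ y₃ : L, ⁅⁅⁅x₁, x₂⁆, x₃⁆, ⁅⁅y₁, y₂⁆, y₃⁆⁆ = 0

/-- The ideal `A` of `L` is abelian and the quotient `L / A` is a quotient of the
three-dimensional Heisenberg algebra: it is spanned by the images of two elements `D, X` and of
`[D,X]`, and the last one is central. -/
def AbelianByHeisenberg {k L : Type u} [Field k] [LieRing L] [LieAlgebra k L]
    (A : LieIdeal k L) : Prop :=
  (∀ a ∈ A, ∀ b ∈ A, ⁅a, b⁆ = 0) ∧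
    ∃ D X : L, ⁅⁅D, X⁆, D⁆ ∈ A ∧ ⁅⁅D, X⁆, X⁆ ∈ A ∧
      ∀ y : L, ∃ a b c : k, y - (a • D + b • X + c • ⁅D, X⁆) ∈ A

/-- Over every field of characteristic zero there is a Lie algebra `L` which is abelian-by-Heisenberg
with an abelian ideal `A` killed by all homomorphisms to finite-dimensional Lie algebras, is
finitely presented (absolutely, and relative to every variety that contains it) and is not
residually finite-dimensional. Hence every variety that contains all abelian-by-(nilpotent of
class 2) Lie algebras contains a finitely presented algebra (in both senses) that is not residually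
finite-dimensional. -/
theorem result (k : Type u) [Field k] [CharZero k] :
    (∃ (L : Type u) (_ : LieRing L) (_ : LieAlgebra k L),
      (∃ A : LieIdeal k L, AbelianByHeisenberg A ∧
        ∀ (B : Type u) [LieRing B] [LieAlgebra k B] [Module.Finite k B] (φ : L →ₗ⁅k⁆ B),
          ∀ a ∈ A, φ a = 0) ∧
      AbelianByNilpotent2 L ∧ FinitelyPresented k L ∧ ¬ ResiduallyFiniteDimensional k L ∧
      ∀ I : Set (FreeLieAlgebra k ℕ), InVariety I L → FinitelyPresentedIn I L) ∧
    ∀ I : Set (FreeLieAlgebra k ℕ),
      (∀ (L : Type u) [LieRing L] [LieAlgebra k L], AbelianByNilpotent2 L → InVariety I L) →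
      ∃ (L : Type u) (_ : LieRing L) (_ : LieAlgebra k L), InVariety I L ∧
        FinitelyPresented k L ∧ FinitelyPresentedIn I L ∧ ¬ ResiduallyFiniteDimensional k L := by
  have h2 : (2 : k) ≠ 0 := two_ne_zero
  have hid : AbelianByNilpotent2 (PP k) := pp_identity h2
  refine ⟨⟨PP k, inferInstance, inferInstance, ⟨AA h2, ⟨?_, gD k, gX k, ?_, ?_, ?_⟩, ?_⟩, hid, fp,
    not_rfd, fpIn⟩, ?_⟩
  · intro a ha b hb
    exact (pr_rel (k := k)).MM_lie h2 ha hb
  · rw [(pr_rel (k := k)).r2]
    exact zero_mem _
  · rw [(pr_rel (k := k)).r1]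
    exact zero_mem _
  · intro y
    obtain ⟨a, b, c, m, hm, rfl⟩ := mem_sub h2 y
    refine ⟨a, b, c, ?_⟩
    rw [add_sub_cancel_left]
    exact hm
  · intro B _ _ _ φ a ha
    exact kills φ ha
  · intro I hI
    have hin : InVariety I (PP k) := hI (PP k) hid
    exact ⟨PP k, inferInstance, inferInstance, hin, fp, fpIn I hin, not_rfd⟩

end Pool.Agent.Results.MP_240c17_al.AboveAN2
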